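import Pool.Agent.H71.FX.Targets

set_option autoImplicit false

namespace Pool.Agent.H32.FX

open Pool.Agent.H71.FX Pool.Agent.H71.PF Pool.Agent.H8.PL

theorem pf_AD : T_AD := by
  classical
  intro a b k w hk0
  have key : (∀ j < w, (k (j + 1) ↔ k j ∧ a j)) → (∀ j < w, (b j ↔ ¬ (a j ↔ k j))) →
      num b w + (if k w then 2 ^ w else 0) = num a w + 1 := by
    induction w with
    | zero =>
      intro _ _
      simp [num, hk0]
    | succ w ih =>
      intro hk hb
      have h1 := ih (fun j hj => hk j (Nat.lt_succ_of_lt hj)) (fun j hj => hb j (Nat.lt_succ_of_lt hj))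
      have h2 := hk w (Nat.lt_succ_self w)
      have h3 := hb w (Nat.lt_succ_self w)
      have ea : num a (w + 1) = num a w + (if a w then 2 ^ w else 0) := by
        simp only [num, Finset.sum_range_succ]
      have eb : num b (w + 1) = num b w + (if b w then 2 ^ w else 0) := by
        simp only [num, Finset.sum_range_succ]
      rw [ea, eb]
      have hp : (2 : ℕ) ^ (w + 1) = 2 * 2 ^ w := by ring
      by_cases ha : a w <;> by_cases hk' : k w
      · have hb' : ¬ b w := by rw [h3]; simp [ha, hk']
        have hk1 : k (w + 1) := h2.2 ⟨hk', ha⟩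
        simp only [ha, hb', hk', hk1, if_true, if_false] at h1 ⊢
        rw [hp]; omega
      · have hb' : b w := by rw [h3]; simp [ha, hk']
        have hk1 : ¬ k (w + 1) := fun h => hk' (h2.1 h).1
        simp only [ha, hb', hk', hk1, if_true, if_false] at h1 ⊢
        omega
      · have hb' : b w := by rw [h3]; simp [ha, hk']
        have hk1 : ¬ k (w + 1) := fun h => ha (h2.1 h).2
        simp only [ha, hb', hk', hk1, if_true, if_false] at h1 ⊢
        omega
      · have hb' : ¬ b w := by rw [h3]; simp [ha, hk']
        have hk1 : ¬ k (w + 1) := fun h => hk' (h2.1 h).1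
        simp only [ha, hb', hk', hk1, if_true, if_false] at h1 ⊢
        omega
  intro hk hb hkw
  have := key hk hb
  simpa [hkw] using this

end Pool.Agent.H32.FX
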