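import Pool.Agent.H71.FX.Targets

set_option autoImplicit false

namespace Pool.Agent.H32.FX

open Pool.Agent.H71.FX Pool.Agent.H71.PF Pool.Agent.H8.PL

theorem pf_IL : T_IL := by
  intro α Q m hm x j
  induction j with
  | zero =>
    intro _
    exact ⟨rfl, fun i hi => absurd hi (Nat.not_lt_zero i), Iff.rfl, Iff.rfl,
      fun h => absurd h (lt_irrefl 0)⟩
  | succ j ih =>
    intro h
    obtain ⟨h1, h2, h3, h4, h5⟩ := ih (fun i hi => h i (Nat.lt_succ_of_lt hi))
    have hy : ¬ m.lf (m.l^[j] x) := h j (Nat.lt_succ_self j)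
    obtain ⟨g1, g2⟩ := (hm (m.l^[j] x)).1.2.1 hy
    have e : m.l^[j + 1] x = m.l (m.l^[j] x) := Function.iterate_succ_apply' m.l j x
    obtain ⟨k1, k2, k3, k4⟩ := (hm (m.l (m.l^[j] x))).1.1 g2
    rw [g1] at k3 k4
    rw [e]
    refine ⟨?_, ?_, ?_, ?_, ?_⟩
    · rw [Function.iterate_succ_apply m.r, g1]
      exact h1
    · intro i hi
      cases i with
      | zero => exact g2
      | succ i =>
        rw [Function.iterate_succ_apply m.r, g1]
        exact h2 i (Nat.lt_of_succ_lt_succ hi)
    · exact k3.symm.trans h3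
    · exact k4.symm.trans h4
    · intro _
      exact g2

end Pool.Agent.H32.FX
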