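import Pool.Agent.H71.FX.Targets

set_option autoImplicit false

namespace Pool.Agent.H32.FX

open Pool.Agent.H71.FX Pool.Agent.H71.PF Pool.Agent.H8.PL

theorem pf_IT : T_IT := by
  intro α Q m hm x j
  induction j with
  | zero => intro _; exact ⟨rfl, Iff.rfl, Iff.rfl, fun h => absurd h (lt_irrefl 0)⟩
  | succ j ih =>
    intro h
    obtain ⟨h1, h2, h3, h4⟩ := ih (fun i hi => h i (Nat.lt_succ_of_lt hi))
    have hy : ¬ m.rt (m.r^[j] x) := h j (Nat.lt_succ_self j)
    obtain ⟨g1, g2, g3, g4⟩ := (hm (m.r^[j] x)).1.1 hy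
    refine ⟨?_, ?_, ?_, ?_⟩
    · rw [Function.iterate_succ_apply' m.r, Function.iterate_succ_apply m.l, g1]
      exact h1
    · rw [Function.iterate_succ_apply' m.r]
      exact g3.trans h2
    · rw [Function.iterate_succ_apply' m.r]
      exact g4.trans h3
    · intro _
      rw [Function.iterate_succ_apply' m.r]
      exact g2

end Pool.Agent.H32.FX
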